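import Pool.Agent.Helper66.NE.Good

/-!
# The instances with a window which starts in any state and inspects many nodes
-/

namespace Pool.Agent.Helper6.PH

open Pool.Agent.Helper74.NW Pool.Agent.Helper74.NE Pool.Agent.Helper19.NF
open Pool.Agent.Helper74.NS (Expands)
open Pool.Agent.Helper66.NE (best_split card_le_sum type_bound_of nonneg_of_DP)

variable {n d m : ℕ} {B : Type} [AddCommGroup B] [NeZero m] {S K : ℕ}

/-- All windows of all computations, from the bounds for the lengths and for the classes. -/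
theorem good_bound_any_of [Fintype B] (P : NProg B (Fin d × Fin m → B) B S) (e : B → Fin K)
    (g : Fin d → Equiv.Perm (Fin n)) (x0 : Fin n × Fin m → B) {R T a : ℕ} {δ : ℝ} (hδ : 0 ≤ δ)
    (h4 : ∀ I : B → Fin d × Fin m → B, CF (fine g) x0 R I → ∀ l : List B, 4 * a ≤ (full g x0 I R l).card →
      (∀ i < R, ∀ p w₁ w₂ q, l = p ++ w₁ ++ w₂ ++ q → (bad g x0 I i w₁ w₂).card < a) → 2 ^ R < l.length)
    (h5 : ∀ i < R, ∀ u : Fin a → Fin n, StrictMono u → ∀ (r r' : Fin a → Fin d × Fin m) (s p t : Fin S)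
      (I : B → Fin d × Fin m → B), CF (fine g) x0 i I →
      (Nat.card {y : (Fin a × Fin m → B) × (Fin a × Fin m → B) //
        InX P e g x0 T i u r r' s p t (I + chg g x0 i u r y.1 I + chg g x0 i u r' y.2 I)} : ℝ) ≤
      δ * Nat.card ((Fin a × Fin m → B) × (Fin a × Fin m → B))) :
    (Nat.card {I : B → Fin d × Fin m → B // CF (fine g) x0 R I ∧ ∃ s₀ l t, Best P e I s₀ l t ∧
        Nat.card {c // c ∈ l} ≤ T ∧ 4 * a ≤ (full g x0 I R l).card ∧ l.length ≤ 2 ^ R} : ℝ) ≤
      R * n.choose a * ((d * m) ^ a) ^ 2 * (S : ℝ) ^ 3 * δ * Nat.card (B → Fin d × Fin m → B) := by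
  classical
  let V : Type := B → Fin d × Fin m → B
  let τ : Type := Fin R × {D : Finset (Fin n) // D.card = a} × (Fin a → Fin d × Fin m) ×
    (Fin a → Fin d × Fin m) × Fin S × Fin S × Fin S
  -- every good instance has a type
  have hty : ∀ I : V, (CF (fine g) x0 R I ∧ ∃ s₀ l t, Best P e I s₀ l t ∧
      Nat.card {c // c ∈ l} ≤ T ∧ 4 * a ≤ (full g x0 I R l).card ∧ l.length ≤ 2 ^ R) →
      ∃ x : τ, InX P e g x0 T x.1 (x.2.1.1.orderEmbOfFin x.2.1.2) x.2.2.1 x.2.2.2.1 x.2.2.2.2.1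
        x.2.2.2.2.2.1 x.2.2.2.2.2.2 I := by
    rintro I ⟨hI, s₀, l, t, hb, hT, hout, hlen⟩
    by_cases hcon : ∀ i < R, ∀ p w₁ w₂ q, l = p ++ w₁ ++ w₂ ++ q → (bad g x0 I i w₁ w₂).card < a
    · exfalso
      have h := h4 I hI l hout hcon
      omega
    · push Not at hcon
      obtain ⟨i, hi, p, w₁, w₂, q, hl, hw⟩ := hcon
      obtain ⟨D, hD, hDa⟩ := Finset.exists_subset_card_eq hw
      have hl' : l = p ++ (w₁ ++ w₂) ++ q := by rw [hl]; simp only [List.append_assoc]
      subst hl'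
      obtain ⟨s', t', hbw⟩ := hb.window
      obtain ⟨p', hb1, hb2⟩ := best_split hbw
      have hh : ∀ j : Fin a, (∀ v, val (fine g) x0 I (i + 1) (D.orderEmbOfFin hDa j, v) ∈ w₁ ++ w₂) ∧
          (∃ c : Fin d × Fin m, val (fine g) x0 I i (g c.1 (D.orderEmbOfFin hDa j), c.2) ∉ w₁) ∧
          ∃ c : Fin d × Fin m, val (fine g) x0 I i (g c.1 (D.orderEmbOfFin hDa j), c.2) ∉ w₂ := by
        intro j
        have h := hD (Finset.orderEmbOfFin_mem D hDa j)
        unfold bad full comp at h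
        simp only [Finset.mem_filter, Finset.mem_univ, true_and, not_forall] at h
        exact h
      choose hh1 hr hr' using hh
      choose r hr using hr
      choose r' hr' using hr'
      refine ⟨(⟨i, hi⟩, ⟨D, hDa⟩, r, r', s', p', t'), hI.mono hi.le, w₁, w₂, hb1, hb2, ?_,
        fun j => ⟨hh1 j, hr j, hr' j⟩⟩
      refine le_trans ?_ hT
      refine Nat.card_le_card_of_injective (fun c : {c // c ∈ w₁ ++ w₂} =>
        (⟨c.1, by
          rw [List.append_assoc, List.mem_append, List.mem_append]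
          exact Or.inr (Or.inl c.2)⟩ : {c // c ∈ p ++ (w₁ ++ w₂) ++ q})) ?_
      intro c c' h
      exact Subtype.ext (congrArg (fun z : {c // c ∈ p ++ (w₁ ++ w₂) ++ q} => z.1) h)
  calc (Nat.card {I : V // CF (fine g) x0 R I ∧ ∃ s₀ l t, Best P e I s₀ l t ∧
        Nat.card {c // c ∈ l} ≤ T ∧ 4 * a ≤ (full g x0 I R l).card ∧ l.length ≤ 2 ^ R} : ℝ)
      ≤ ((∑ x : τ, Nat.card {I : V //
          InX P e g x0 T x.1 (x.2.1.1.orderEmbOfFin x.2.1.2) x.2.2.1 x.2.2.2.1 x.2.2.2.2.1
            x.2.2.2.2.2.1 x.2.2.2.2.2.2 I} : ℕ) : ℝ) := by exact_mod_cast card_le_sum hty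
    _ = ∑ x : τ, (Nat.card {I : V //
          InX P e g x0 T x.1 (x.2.1.1.orderEmbOfFin x.2.1.2) x.2.2.1 x.2.2.2.1 x.2.2.2.2.1
            x.2.2.2.2.2.1 x.2.2.2.2.2.2 I} : ℝ) := by push_cast; rfl
    _ ≤ ∑ _x : τ, δ * Nat.card V := by
        refine Finset.sum_le_sum fun x _ => ?_
        exact type_bound_of P e g x0 hδ _ _ _ _ _ _ fun I hI =>
          h5 x.1 x.1.2 _ (Finset.orderEmbOfFin x.2.1.1 x.2.1.2).strictMono _ _ _ _ _ I hI
    _ = R * n.choose a * ((d * m) ^ a) ^ 2 * (S : ℝ) ^ 3 * δ * Nat.card V := by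
        rw [Finset.sum_const, Finset.card_univ, nsmul_eq_mul]
        have hc : Fintype.card τ = R * (n.choose a * ((d * m) ^ a * ((d * m) ^ a * (S * (S * S))))) := by
          show Fintype.card (Fin R × {D : Finset (Fin n) // D.card = a} ×
            (Fin a → Fin d × Fin m) × (Fin a → Fin d × Fin m) × Fin S × Fin S × Fin S) = _
          simp only [Fintype.card_prod, Fintype.card_fin, Fintype.card_fun, Fintype.card_finset_len]
        rw [hc]
        push_cast
        ring

/-- The windows of the best computations from any state: if at most `T` cells are inspected in the window and all the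
letters of at least `4 a` nodes of the row `R`, then the window is longer than `2 ^ R`, with few exceptions. -/
theorem good_bound_any [Fintype B] (P : NProg B (Fin d × Fin m → B) B S) (e : B → Fin K)
    (he : Function.Injective e) (g : Fin d → Equiv.Perm (Fin n)) (x0 : Fin n × Fin m → B)
    {R T a : ℕ} {δ : ℝ} (hδ : DP B (Fin a × Fin m) T δ) (ha : 1 ≤ a) (hE : Expands g a) :
    (Nat.card {I : B → Fin d × Fin m → B // CF (fine g) x0 R I ∧ ∃ s₀ l t, Best P e I s₀ l t ∧
        Nat.card {c // c ∈ l} ≤ T ∧ 4 * a ≤ (full g x0 I R l).card ∧ l.length ≤ 2 ^ R} : ℝ) ≤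
      R * n.choose a * ((d * m) ^ a) ^ 2 * (S : ℝ) ^ 3 * δ * Nat.card (B → Fin d × Fin m → B) :=
  good_bound_any_of P e g x0 (nonneg_of_DP hδ)
    (fun _ hI l hl hh => Pool.Agent.Helper1.NE.long ha hE hI l hl hh)
    fun _ _ u hu r r' s p t I hI => Pool.Agent.Helper96.NE.class_bound P e he g x0 hδ u hu r r' s p t I hI

end Pool.Agent.Helper6.PH
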