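import Pool.Agent.Helper6.PH.Cut
import Pool.Agent.Helper6.PH.Good

/-!
# The pieces of a best computation
-/

namespace Pool.Agent.Helper6.PH

open Pool.Agent.Helper74.NW
open Pool.Agent.Helper66.NE (best_split)

variable {C W Z : Type} {S K : ℕ} {P : NProg C W Z S} {e : C → Fin K} {I : C → W}

theorem best_nil (t : Fin S) : Best P e I t [] t :=
  ⟨NProg.Run.nil t, fun _ _ => Nat.zero_le _, fun w' _ h => by
    rw [List.length_nil] at h
    rw [List.length_eq_zero_iff.1 h]⟩

/-- If the list of a best computation can be cut into at most `w` pieces with few different elements, then the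
computation consists of exactly `w` best computations of this kind. -/
theorem best_pieces {T : ℕ} : (w : ℕ) → {s t : Fin S} → {l : List C} → Best P e I s l t → Cuts T w l →
    ∃ (q : Fin (w + 1) → Fin S) (L : Fin w → List C), q 0 = s ∧ q (Fin.last w) = t ∧
      (∀ i, Best P e I (q i.castSucc) (L i) (q i.succ)) ∧ (∀ i, Nat.card {c // c ∈ L i} ≤ T) ∧
      (List.ofFn L).flatten = l
  | 0, s, t, l, h, ⟨L, h1, h2, h3⟩ => by
    have h4 : L = [] := List.length_eq_zero_iff.1 (by omega)
    subst h4
    have h5 : l = [] := by rw [← h1]; rfl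
    subst h5
    have h6 : s = t := by
      have h7 := h.run
      cases h7
      rfl
    exact ⟨fun _ => s, Fin.elim0, rfl, h6, fun i => i.elim0, fun i => i.elim0, by simp⟩
  | w + 1, s, t, l, h, ⟨L, h1, h2, h3⟩ => by
    rcases L with _ | ⟨p, L⟩
    · have h5 : l = [] := by rw [← h1]; rfl
      subst h5
      obtain ⟨q, L', h6, h7, h8, h9, h10⟩ := best_pieces w h ⟨[], rfl, by simp, by simp⟩
      refine ⟨Fin.cons s q, Fin.cons [] L', rfl, ?_, ?_, ?_, ?_⟩
      · rw [← Fin.succ_last, Fin.cons_succ, h7]
      · intro i
        refine Fin.cases ?_ (fun j => ?_) i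
        · rw [Fin.castSucc_zero, Fin.cons_zero, Fin.cons_zero, Fin.cons_succ, h6]
          exact best_nil s
        · rw [Fin.cons_succ, Fin.cons_succ, ← Fin.succ_castSucc, Fin.cons_succ]
          exact h8 j
      · intro i
        refine Fin.cases ?_ (fun j => ?_) i
        · rw [Fin.cons_zero]
          simp
        · rw [Fin.cons_succ]
          exact h9 j
      · rw [List.ofFn_succ]
        simpa using h10
    · rw [List.flatten_cons] at h1
      subst h1
      obtain ⟨r, hr1, hr2⟩ := best_split h
      obtain ⟨q, L', h6, h7, h8, h9, h10⟩ := best_pieces w hr2 ⟨L, rfl, by simpa using h2,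
        fun q hq => h3 q (List.mem_cons_of_mem _ hq)⟩
      refine ⟨Fin.cons s q, Fin.cons p L', rfl, ?_, ?_, ?_, ?_⟩
      · rw [← Fin.succ_last, Fin.cons_succ, h7]
      · intro i
        refine Fin.cases ?_ (fun j => ?_) i
        · rw [Fin.castSucc_zero, Fin.cons_zero, Fin.cons_zero, Fin.cons_succ, h6]
          exact hr1
        · rw [Fin.cons_succ, Fin.cons_succ, ← Fin.succ_castSucc, Fin.cons_succ]
          exact h8 j
      · intro i
        refine Fin.cases ?_ (fun j => ?_) i
        · rw [Fin.cons_zero]
          exact h3 p List.mem_cons_self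
        · rw [Fin.cons_succ]
          exact h9 j
      · rw [List.ofFn_succ]
        simpa using h10

end Pool.Agent.Helper6.PH
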