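import Mathlib

/-!
# Cutting a computation into windows with few different cells
-/

namespace Pool.Agent.Helper6.PH

variable {C : Type}

/-- The list can be cut into at most `w` pieces with at most `T` different elements each. -/
def Cuts (T w : ℕ) (l : List C) : Prop :=
  ∃ L : List (List C), L.flatten = l ∧ L.length ≤ w ∧ ∀ p ∈ L, Nat.card {c // c ∈ p} ≤ T

theorem card_mem [DecidableEq C] (p : List C) : Nat.card {c // c ∈ p} = p.toFinset.card := by
  have h : {c // c ∈ p} ≃ p.toFinset := Equiv.subtypeEquivRight (fun c => by simp)
  rw [Nat.card_congr h, Nat.card_eq_fintype_card, Fintype.card_coe]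

/-- All pieces but the first one are full. -/
theorem exists_full [DecidableEq C] {T : ℕ} (hT : 1 ≤ T) : (l : List C) →
    ∃ (p : List C) (L : List (List C)), p ++ L.flatten = l ∧ p.toFinset.card ≤ T ∧
      ∀ q ∈ L, q.toFinset.card = T
  | [] => ⟨[], [], by simp⟩
  | c :: l => by
    obtain ⟨p, L, h1, h2, h3⟩ := exists_full hT l
    by_cases h4 : (c :: p).toFinset.card ≤ T
    · exact ⟨c :: p, L, by rw [List.cons_append, h1], h4, h3⟩
    · refine ⟨[c], p :: L, by rw [List.flatten_cons, h1, List.singleton_append], by simpa using hT,
        fun q hq => ?_⟩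
      rcases List.mem_cons.1 hq with rfl | hq
      · rw [List.toFinset_cons] at h4
        have h5 := Finset.card_insert_le c q.toFinset
        omega
      · exact h3 q hq

/-- Each full piece contains many rarely used elements. -/
theorem length_mul_le [DecidableEq C] [Fintype C] {T : ℕ} (Y : Finset C) : (L : List (List C)) →
    (∀ q ∈ L, q.toFinset.card = T) →
    L.length * (Y.card + T - Fintype.card C) ≤ ∑ c ∈ Y, L.flatten.count c
  | [], _ => by simp
  | q :: L, h => by
    have ih := length_mul_le Y L (fun p hp => h p (List.mem_cons_of_mem _ hp))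
    have h1 : Y.card + T - Fintype.card C ≤ (q.toFinset ∩ Y).card := by
      have h2 := Finset.card_union_add_card_inter q.toFinset Y
      have h3 := Finset.card_le_univ (q.toFinset ∪ Y)
      have h4 := h q List.mem_cons_self
      omega
    have h2 : (q.toFinset ∩ Y).card ≤ ∑ c ∈ Y, q.count c := by
      rw [Finset.card_eq_sum_ones, Finset.inter_comm]
      calc ∑ _x ∈ Y ∩ q.toFinset, 1 ≤ ∑ x ∈ Y ∩ q.toFinset, q.count x := by
            refine Finset.sum_le_sum fun x hx => ?_
            have h5 : x ∈ q := List.mem_toFinset.1 (Finset.mem_inter.1 hx).2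
            exact List.count_pos_iff.2 h5
        _ ≤ ∑ c ∈ Y, q.count c :=
            Finset.sum_le_sum_of_subset Finset.inter_subset_left
    rw [List.length_cons, Nat.succ_mul]
    simp only [List.flatten_cons, List.count_append, Finset.sum_add_distrib]
    omega

/-- If many elements occur at most `r` times, then few pieces are enough. -/
theorem cuts_of_count [DecidableEq C] [Fintype C] {T r : ℕ} (l : List C)
    (h : 2 * (Fintype.card C - T) ≤ (Finset.univ.filter fun c => l.count c ≤ r).card) (hT : 1 ≤ T) :
    Cuts T (2 * r + 1) l := by
  obtain ⟨p, L, h1, h2, h3⟩ := exists_full hT l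
  rcases Nat.lt_or_ge T (Fintype.card C) with hk | hk
  · refine ⟨p :: L, by rw [List.flatten_cons, h1], ?_, fun q hq => ?_⟩
    · set Y := Finset.univ.filter fun c => l.count c ≤ r with hY
      have h4 := length_mul_le Y L h3
      have h5 : ∑ c ∈ Y, L.flatten.count c ≤ Y.card * r := by
        rw [← smul_eq_mul, ← Finset.sum_const]
        refine Finset.sum_le_sum fun c hc => ?_
        have h6 : l.count c ≤ r := (Finset.mem_filter.1 hc).2
        rw [← h1, List.count_append] at h6
        omega
      have h6 : L.length * (Y.card + T - Fintype.card C) ≤ Y.card * r := h4.trans h5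
      have h7 : Y.card ≤ 2 * (Y.card + T - Fintype.card C) := by omega
      have h8 : 0 < Y.card := by omega
      have h9 : L.length * Y.card ≤ 2 * r * Y.card := by
        calc L.length * Y.card ≤ L.length * (2 * (Y.card + T - Fintype.card C)) :=
              Nat.mul_le_mul_left _ h7
          _ = 2 * (L.length * (Y.card + T - Fintype.card C)) := by ring
          _ ≤ 2 * (Y.card * r) := Nat.mul_le_mul_left _ h6
          _ = 2 * r * Y.card := by ring
      have h10 := Nat.le_of_mul_le_mul_right h9 h8
      rw [List.length_cons]
      omega
    · rw [card_mem]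
      rcases List.mem_cons.1 hq with rfl | hq
      · exact h2
      · exact (h3 q hq).le
  · refine ⟨[l], by simp, by simp, fun q hq => ?_⟩
    rw [List.mem_singleton.1 hq, card_mem]
    exact (Finset.card_le_univ _).trans hk

/-- Short lists. -/
theorem cuts_of_length {T : ℕ} : (w : ℕ) → (l : List C) → l.length ≤ w * T → Cuts T w l
  | 0, l, h => by
    have h1 : l = [] := List.length_eq_zero_iff.1 (by omega)
    exact ⟨[], by simp [h1], by simp, by simp⟩
  | w + 1, l, h => by
    classical
    obtain ⟨L, h1, h2, h3⟩ := cuts_of_length (T := T) w (l.drop T) (by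
      rw [List.length_drop]
      rw [Nat.succ_mul] at h
      omega)
    refine ⟨l.take T :: L, by rw [List.flatten_cons, h1, List.take_append_drop], by simpa using h2,
      fun q hq => ?_⟩
    rcases List.mem_cons.1 hq with rfl | hq
    · rw [card_mem]
      exact (List.toFinset_card_le _).trans (List.length_take_le _ _)
    · exact h3 q hq

/-- The greedy number of cuts: `s` is the set of the elements of the present piece. -/
def extra [DecidableEq C] (T : ℕ) : Finset C → List C → ℕ
  | _, [] => 0
  | s, c :: l => if (insert c s).card ≤ T then extra T (insert c s) l else 1 + extra T {c} l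

/-- A larger set of elements in the present piece is worse, by at most one cut. -/
theorem extra_mono [DecidableEq C] {T : ℕ} (l : List C) : ∀ s t : Finset C, s ⊆ t →
    extra T s l ≤ extra T t l ∧ extra T t l ≤ 1 + extra T s l := by
  induction l with
  | nil => exact fun s t _ => ⟨le_rfl, Nat.zero_le _⟩
  | cons c l ih =>
    intro s t hst
    have h1 : insert c s ⊆ insert c t := Finset.insert_subset_insert c hst
    have h2 := Finset.card_le_card h1
    unfold extra
    by_cases h3 : (insert c t).card ≤ T
    · rw [if_pos h3, if_pos (h2.trans h3)]
      exact ih _ _ h1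
    · rw [if_neg h3]
      by_cases h4 : (insert c s).card ≤ T
      · rw [if_pos h4]
        have h5 := ih {c} (insert c s) (by simp)
        constructor
        · exact h5.2
        · omega
      · rw [if_neg h4]
        constructor <;> omega

theorem extra_append [DecidableEq C] {T : ℕ} (p l : List C) : ∀ s : Finset C,
    (s ∪ p.toFinset).card ≤ T → extra T s (p ++ l) = extra T (s ∪ p.toFinset) l := by
  induction p with
  | nil => intro s _; simp
  | cons c p ih =>
    intro s hs
    have h1 : s ∪ (c :: p).toFinset = insert c s ∪ p.toFinset := by
      rw [List.toFinset_cons]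
      ext x
      simp only [Finset.mem_union, Finset.mem_insert]
      tauto
    rw [h1] at hs ⊢
    rw [List.cons_append]
    have h2 : (insert c s).card ≤ T :=
      (Finset.card_le_card Finset.subset_union_left).trans hs
    change (if (insert c s).card ≤ T then extra T (insert c s) (p ++ l) else _) = _
    rw [if_pos h2]
    exact ih _ hs

/-- The greedy cutting is the best one. -/
theorem extra_lt_of_cuts [DecidableEq C] {T : ℕ} : (w : ℕ) → (l : List C) → Cuts T (w + 1) l →
    extra T ∅ l ≤ w := by
  intro w l ⟨L, h1, h2, h3⟩
  have key : ∀ L : List (List C), (∀ p ∈ L, Nat.card {c // c ∈ p} ≤ T) →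
      extra T ∅ L.flatten ≤ L.length - 1 := by
    intro L
    induction L with
    | nil => intro _; simp [extra]
    | cons p L ih =>
      intro h
      have h4 := ih (fun q hq => h q (List.mem_cons_of_mem _ hq))
      have h5 : p.toFinset.card ≤ T := by
        rw [← card_mem]
        exact h p List.mem_cons_self
      rw [List.flatten_cons, extra_append p _ ∅ (by simpa using h5)]
      rcases L with _ | ⟨q, L⟩
      · simp [extra]
      · have h6 := (extra_mono (T := T) (List.flatten (q :: L)) ∅ (∅ ∪ p.toFinset)
          (Finset.empty_subset _)).2
        simp only [List.length_cons] at h4 ⊢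
        omega
  have h4 := key L h3
  rw [h1] at h4
  omega

end Pool.Agent.Helper6.PH
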