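import Pool.Agent.Helper6.PH.Pieces

/-!
# Greedy windows of deterministic programs
-/

namespace Pool.Agent.Helper6.PH

open Pool.Agent.Helper74.NW
open Pool.Agent.Helper66.NE (best_split)

variable {C W Z : Type} {S K : ℕ} {P : NProg C W Z S} {e : C → Fin K} {I I' : C → W}

/-- The program is deterministic. -/
def Det (P : NProg C W Z S) : Prop := ∀ s c next, P.act s = Sum.inl (c, next) → ∀ w, ∃ t, next w = {t}

/-- A computation from `s` to `t` with at most `T` different cells, which cannot be continued: if `t` is not final, then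
it queries a further cell. -/
def Win (P : NProg C W Z S) (T : ℕ) (I : C → W) (s : Fin S) (w : List C) (t : Fin S) : Prop :=
  P.Run I s w t ∧ Nat.card {c // c ∈ w} ≤ T ∧
    ∀ c next, P.act t = Sum.inl (c, next) → c ∉ w ∧ Nat.card {c // c ∈ w} = T

theorem win_congr {T : ℕ} {s t : Fin S} {w : List C} (h : Win P T I s w t) (hI : ∀ c ∈ w, I c = I' c) :
    Win P T I' s w t :=
  ⟨run_congr h.1 hI, h.2⟩

/-- Deterministic computations from the same state: one is the beginning of the other. -/
theorem det_prefix (hP : Det P) : (w : List C) → {s t t' : Fin S} → {w' : List C} → P.Run I s w t → P.Run I s w' t' →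
    (∃ u, w' = w ++ u ∧ P.Run I t u t') ∨ ∃ u, w = w' ++ u ∧ P.Run I t' u t
  | [], s, t, t', w', h, h' => by
    cases h
    exact Or.inl ⟨w', rfl, h'⟩
  | c :: w, s, t, t', w', h, h' => by
    cases h with
    | cons _ s₁ _ _ next _ h1 h2 h3 =>
      cases h' with
      | nil _ => exact Or.inr ⟨c :: w, rfl, NProg.Run.cons s s₁ t c next w h1 h2 h3⟩
      | cons _ s₂ _ c' next' l' h4 h5 h6 =>
        have h7 : (c, next) = (c', next') := Sum.inl_injective (h1.symm.trans h4)
        have h8 : c = c' := (Prod.ext_iff.1 h7).1
        have h9 : next = next' := (Prod.ext_iff.1 h7).2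
        subst h8
        subst h9
        obtain ⟨r, hr⟩ := hP s c next h1 (I c)
        rw [hr] at h2 h5
        have h10 : s₁ = r := h2
        have h11 : s₂ = r := h5
        subst h10
        subst h11
        rcases det_prefix hP w h3 h6 with ⟨u, h12, h13⟩ | ⟨u, h12, h13⟩
        · exact Or.inl ⟨u, by rw [h12]; rfl, h13⟩
        · exact Or.inr ⟨u, by rw [h12]; rfl, h13⟩

theorem card_lt_of_new {w u : List C} {c : C} (hc : c ∉ w) :
    Nat.card {x // x ∈ w} < Nat.card {x // x ∈ w ++ c :: u} := by
  classical
  rw [card_mem, card_mem]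
  refine Finset.card_lt_card ?_
  rw [Finset.ssubset_iff_of_subset (fun x hx => by
    rw [List.mem_toFinset] at hx ⊢
    exact List.mem_append_left _ hx)]
  exact ⟨c, by simp, by simpa using hc⟩

/-- The greedy window is unique. -/
theorem win_unique (hP : Det P) {T : ℕ} {s t t' : Fin S} {w w' : List C} (h : Win P T I s w t)
    (h' : Win P T I s w' t') : w = w' ∧ t = t' := by
  have key : ∀ {t t' : Fin S} {w w' : List C}, Win P T I s w t → Win P T I s w' t' →
      (∃ u, w' = w ++ u ∧ P.Run I t u t') → w = w' ∧ t = t' := by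
    rintro t t' w w' h h' ⟨u, h1, h2⟩
    cases h2 with
    | nil _ => exact ⟨by rw [h1, List.append_nil], rfl⟩
    | cons _ s₁ _ c next u h3 h4 h5 =>
      exfalso
      have h6 := h.2.2 c next h3
      have h7 := card_lt_of_new (u := u) h6.1
      rw [← h1] at h7
      have h8 := h'.2.1
      omega
  rcases det_prefix hP w h.1 h'.1 with h1 | h1
  · exact key h h' h1
  · have h2 := key h' h h1
    exact ⟨h2.1.symm, h2.2.symm⟩

/-- Deterministic computations which reach a final state are best computations. -/
theorem det_best (hP : Det P) {s t : Fin S} {l : List C} {z : Z} (h : P.Run I s l t) (ht : P.act t = Sum.inr z) :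
    Best P e I s l t := by
  have key : ∀ w', P.Run I s w' t → w' = l := by
    intro w' hw'
    rcases det_prefix hP l h hw' with ⟨u, h1, h2⟩ | ⟨u, h1, h2⟩
    · cases h2 with
      | nil _ => rw [h1, List.append_nil]
      | cons _ s₁ _ c next u h3 h4 h5 => rw [ht] at h3; cases h3
    · cases h2 with
      | nil _ => rw [h1, List.append_nil]
      | cons _ s₁ _ c next u h3 h4 h5 => rw [ht] at h3; cases h3
  exact ⟨h, fun w' hw' => by rw [key w' hw'], fun w' hw' _ => by rw [key w' hw']⟩

/-- The longest beginning of the list with few different elements. -/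
theorem exists_greedy [DecidableEq C] {T : ℕ} : (l : List C) → (s : Finset C) → s.card ≤ T →
    ∃ p l', l = p ++ l' ∧ (s ∪ p.toFinset).card ≤ T ∧
      ∀ c l'', l' = c :: l'' → c ∉ s ∪ p.toFinset ∧ (s ∪ p.toFinset).card = T
  | [], s, hs => ⟨[], [], rfl, by simpa using hs, fun c l'' h => by cases h⟩
  | c :: l, s, hs => by
    by_cases h : (insert c s).card ≤ T
    · obtain ⟨p, l', h1, h2, h3⟩ := exists_greedy l (insert c s) h
      have h4 : s ∪ (c :: p).toFinset = insert c s ∪ p.toFinset := by
        rw [List.toFinset_cons]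
        ext x
        simp only [Finset.mem_union, Finset.mem_insert]
        tauto
      refine ⟨c :: p, l', by rw [h1]; rfl, by rw [h4]; exact h2, ?_⟩
      rw [h4]
      exact h3
    · refine ⟨[], c :: l, rfl, by simpa using hs, fun c' l'' h' => ?_⟩
      obtain ⟨rfl, rfl⟩ := List.cons.inj h'
      have h5 : c ∉ s := by
        intro h6
        rw [Finset.insert_eq_of_mem h6] at h
        exact h hs
      rw [Finset.card_insert_of_notMem h5] at h
      simp only [List.toFinset_nil, Finset.union_empty]
      exact ⟨h5, by omega⟩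

/-- The list is empty or the greedy cutting needs one more piece. -/
theorem extra_new [DecidableEq C] {T : ℕ} (hT : 1 ≤ T) {c : C} {l : List C} {s : Finset C} (hc : c ∉ s)
    (hs : s.card = T) : extra T s (c :: l) = 1 + extra T ∅ (c :: l) := by
  have h1 : ¬ (insert c s).card ≤ T := by
    rw [Finset.card_insert_of_notMem hc]
    omega
  have h2 : (insert c (∅ : Finset C)).card ≤ T := by
    rw [Finset.card_insert_of_notMem (by simp)]
    simpa using hT
  change (if (insert c s).card ≤ T then extra T (insert c s) l else 1 + extra T {c} l) =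
    1 + (if (insert c (∅ : Finset C)).card ≤ T then extra T (insert c (∅ : Finset C)) l else 1 + extra T {c} l)
  rw [if_neg h1, if_pos h2]
  rfl

/-- A best computation consists of at most `w + 1` greedy windows, if it can be cut into `w + 1` pieces with few
different cells. -/
theorem exists_wins [DecidableEq C] {T : ℕ} (hT : 1 ≤ T) : (w : ℕ) → {s t : Fin S} → {l : List C} → {z : Z} →
    Best P e I s l t → P.act t = Sum.inr z → extra T ∅ l ≤ w →
    ∃ (q : Fin (w + 2) → Fin S) (L : Fin (w + 1) → List C), q 0 = s ∧ q (Fin.last (w + 1)) = t ∧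
      (∀ i, Best P e I (q i.castSucc) (L i) (q i.succ)) ∧ (∀ i, Win P T I (q i.castSucc) (L i) (q i.succ)) ∧
      (List.ofFn L).flatten = l := by
  intro w
  induction w with
  | zero =>
    intro s t l z h hz hl
    obtain ⟨p, l', h1, h2, h3⟩ := exists_greedy (T := T) l ∅ (by simp)
    have h4 : l' = [] := by
      rcases l' with _ | ⟨c, l'⟩
      · rfl
      · exfalso
        obtain ⟨h5, h6⟩ := h3 c l' rfl
        rw [h1, extra_append p _ ∅ h2, extra_new hT h5 h6] at hl
        omega
    subst h4
    rw [List.append_nil] at h1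
    subst h1
    refine ⟨Fin.cons s fun _ => t, fun _ => l, rfl, ?_, ?_, ?_, by simp⟩
    · rw [← Fin.succ_last, Fin.cons_succ]
    · intro i
      have hi : i = 0 := Fin.ext (by have := i.2; simp)
      rw [hi, Fin.castSucc_zero, Fin.cons_zero, Fin.cons_succ]
      exact h
    · intro i
      have hi : i = 0 := Fin.ext (by have := i.2; simp)
      rw [hi, Fin.castSucc_zero, Fin.cons_zero, Fin.cons_succ]
      refine ⟨h.run, ?_, fun c next hc => ?_⟩
      · rw [card_mem]
        rw [Finset.empty_union] at h2
        exact h2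
      · rw [hz] at hc
        cases hc
  | succ w ih =>
    intro s t l z h hz hl
    obtain ⟨p, l', h1, h2, h3⟩ := exists_greedy (T := T) l ∅ (by simp)
    have hl' : extra T ∅ l' ≤ w := by
      rcases l' with _ | ⟨c, l'⟩
      · simp [extra]
      · obtain ⟨h5, h6⟩ := h3 c l' rfl
        rw [h1, extra_append p _ ∅ h2, extra_new hT h5 h6] at hl
        omega
    rw [h1] at h
    obtain ⟨r, hr1, hr2⟩ := best_split h
    obtain ⟨q, L, h6, h7, h8, h9, h10⟩ := ih hr2 hz hl'
    have hwin : Win P T I s p r := by
      refine ⟨hr1.run, ?_, fun c next hc => ?_⟩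
      · rw [card_mem]
        rw [Finset.empty_union] at h2
        exact h2
      · have hr := hr2.run
        cases hr with
        | nil _ =>
          rw [hz] at hc
          cases hc
        | cons _ s₁ _ c' next' u h11 h12 h13 =>
          have h14 : (c', next') = (c, next) := Sum.inl_injective (h11.symm.trans hc)
          obtain ⟨h5, h6⟩ := h3 c' u rfl
          have h15 : c' = c := (Prod.ext_iff.1 h14).1
          rw [← h15, card_mem]
          rw [Finset.empty_union] at h5 h6
          exact ⟨fun h16 => h5 (List.mem_toFinset.2 h16), h6⟩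
    refine ⟨Fin.cons s q, Fin.cons p L, rfl, ?_, ?_, ?_, ?_⟩
    · rw [← Fin.succ_last, Fin.cons_succ, h7]
    · intro i
      refine Fin.cases ?_ (fun j => ?_) i
      · rw [Fin.castSucc_zero, Fin.cons_zero, Fin.cons_zero, Fin.cons_succ, h6]
        exact hr1
      · rw [Fin.cons_succ, Fin.cons_succ, ← Fin.succ_castSucc, Fin.cons_succ]
        exact h8 j
    · intro i
      refine Fin.cases ?_ (fun j => ?_) i
      · rw [Fin.castSucc_zero, Fin.cons_zero, Fin.cons_zero, Fin.cons_succ, h6]
        exact hwin
      · rw [Fin.cons_succ, Fin.cons_succ, ← Fin.succ_castSucc, Fin.cons_succ]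
        exact h9 j
    · rw [List.ofFn_succ, h1]
      simpa using h10

end Pool.Agent.Helper6.PH
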