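import Pool.Agent.Helper6.PH.Cut
import Pool.Agent.Helper96.PH.Defs

/-!
# Few windows
-/

namespace Pool.Agent.Helper6.PH

open Pool.Agent.Helper96.PH

variable {C : Type}

/-- Empty parts can be added. -/
theorem cut_of_cuts {T W : ℕ} {l : List C} (h : Cuts T W l) : Cut T W l := by
  obtain ⟨L, h1, h2, h3⟩ := h
  refine ⟨L ++ List.replicate (W - L.length) [], by simp; omega, by simp [h1], fun x hx => ?_⟩
  rcases List.mem_append.1 hx with hx | hx
  · exact h3 x hx
  · rw [List.eq_of_mem_replicate hx]
    simp

/-- P3a: if each of `L` cells is queried at most `r` times, then there are few windows. -/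
theorem cut_of_count [Fintype C] [DecidableEq C] {T W r : ℕ} (l : List C) (X : Finset C)
    (hX : ∀ c ∈ X, l.count c ≤ r) (hT : T ≤ Fintype.card C)
    (h : r * X.card < W * (X.card - (Fintype.card C - T))) : Cut T W l := by
  have hX1 := Finset.card_le_univ X
  have hT1 : 1 ≤ T := by
    by_contra hc
    have h1 : T = 0 := by omega
    subst h1
    have h2 : X.card - (Fintype.card C - 0) = 0 := by omega
    rw [h2, Nat.mul_zero] at h
    exact Nat.not_lt_zero _ h
  obtain ⟨p, L, h1, h2, h3⟩ := exists_full hT1 l
  have h4 := length_mul_le X L h3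
  have h5 : ∑ c ∈ X, L.flatten.count c ≤ X.card * r := by
    rw [← smul_eq_mul, ← Finset.sum_const]
    refine Finset.sum_le_sum fun c hc => ?_
    have h6 : l.count c ≤ r := hX c hc
    rw [← h1, List.count_append] at h6
    omega
  have h6 : X.card + T - Fintype.card C = X.card - (Fintype.card C - T) := by omega
  rw [h6] at h4
  have h7 : L.length * (X.card - (Fintype.card C - T)) < W * (X.card - (Fintype.card C - T)) := by
    calc L.length * (X.card - (Fintype.card C - T)) ≤ X.card * r := h4.trans h5
      _ = r * X.card := Nat.mul_comm _ _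
      _ < _ := h
  have h8 : L.length < W := Nat.lt_of_mul_lt_mul_right h7
  refine cut_of_cuts ⟨p :: L, by rw [List.flatten_cons, h1], by rw [List.length_cons]; omega, fun q hq => ?_⟩
  rw [card_mem]
  rcases List.mem_cons.1 hq with rfl | hq
  · exact h2
  · exact (h3 q hq).le

/-- P3b: a short computation has few windows. -/
theorem cut_of_length {T W : ℕ} (l : List C) (h : l.length ≤ W * T) : Cut T W l :=
  cut_of_cuts (cuts_of_length W l h)

end Pool.Agent.Helper6.PH
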